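import Pool.Agent.Helper54.DI.StmtsB

/-! The test for membership in the fragment is correct. -/

namespace Pool.Agent.Helper67.DI

open Pool.Agent.Helper54.ETR Pool.Agent.Helper54.Poly Pool.Agent.Helper54.DI

theorem tlin_iff (t : Term) : tlin t = true ↔ t.Lin := by
  induction t with
  | zero => simp [tlin, Term.Lin]
  | one => simp [tlin, Term.Lin]
  | var i => simp [tlin, Term.Lin]
  | add s t ihs iht => simp [tlin, Term.Lin, ihs, iht]
  | sub s t ihs iht => simp [tlin, Term.Lin, ihs, iht]
  | mul s t ihs iht => simp [tlin, Term.Lin]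

theorem okF_of_any (Γ : List Form) (φ : Form)
    (h : Γ.any (fun ρ => matchb ρ φ.toks) = true) : okF Γ φ = true := by
  cases φ <;> rw [okF, h] <;> rfl

theorem any_iff (hM : ST_MATCH) (Γ : List Form) (φ : Form) :
    Γ.any (fun ρ => matchb ρ φ.toks) = true ↔ ∃ ρ ∈ Γ, ∃ f, φ = ρ.ren f := by
  rw [List.any_eq_true]
  constructor
  · rintro ⟨ρ, h1, h2⟩
    exact ⟨ρ, h1, (hM ρ φ).1.1 h2⟩
  · rintro ⟨ρ, h1, h2⟩
    exact ⟨ρ, h1, (hM ρ φ).1.2 h2⟩

theorem over_of_any (hM : ST_MATCH) (Γ : List Form) (φ : Form)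
    (h : Γ.any (fun ρ => matchb ρ φ.toks) = true) : Over Γ φ := by
  obtain ⟨ρ, h1, f, rfl⟩ := (any_iff hM Γ φ).1 h
  exact Over.rel f h1

theorem st_OKF (hM : ST_MATCH) : ST_OKF := by
  intro Γ φ
  constructor
  · induction φ with
    | lt s t =>
      intro h
      rw [okF, Bool.or_eq_true, Bool.and_eq_true, tlin_iff, tlin_iff] at h
      rcases h with h | h
      · exact over_of_any hM Γ _ h
      · exact Over.lt h.1 h.2
    | le s t =>
      intro h
      rw [okF, Bool.or_eq_true, Bool.and_eq_true, tlin_iff, tlin_iff] at h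
      rcases h with h | h
      · exact over_of_any hM Γ _ h
      · exact Over.le h.1 h.2
    | eq s t =>
      intro h
      rw [okF, Bool.or_eq_true, Bool.and_eq_true, tlin_iff, tlin_iff] at h
      rcases h with h | h
      · exact over_of_any hM Γ _ h
      · exact Over.eq h.1 h.2
    | ge s t =>
      intro h
      rw [okF, Bool.or_eq_true, Bool.and_eq_true, tlin_iff, tlin_iff] at h
      rcases h with h | h
      · exact over_of_any hM Γ _ h
      · exact Over.ge h.1 h.2
    | gt s t =>
      intro h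
      rw [okF, Bool.or_eq_true, Bool.and_eq_true, tlin_iff, tlin_iff] at h
      rcases h with h | h
      · exact over_of_any hM Γ _ h
      · exact Over.gt h.1 h.2
    | and p q ihp ihq =>
      intro h
      rw [okF, Bool.or_eq_true, Bool.and_eq_true] at h
      rcases h with h | h
      · exact over_of_any hM Γ _ h
      · exact Over.and (ihp h.1) (ihq h.2)
    | or p q ihp ihq =>
      intro h
      rw [okF, Bool.or_eq_true, Bool.and_eq_true] at h
      rcases h with h | h
      · exact over_of_any hM Γ _ h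
      · exact Over.or (ihp h.1) (ihq h.2)
    | not p ihp =>
      intro h
      rw [okF, Bool.or_eq_true] at h
      rcases h with h | h
      · exact over_of_any hM Γ _ h
      · exact Over.not (ihp h)
  · intro h
    induction h with
    | lt hs ht => rw [okF, (tlin_iff _).2 hs, (tlin_iff _).2 ht, Bool.and_self, Bool.or_true]
    | le hs ht => rw [okF, (tlin_iff _).2 hs, (tlin_iff _).2 ht, Bool.and_self, Bool.or_true]
    | eq hs ht => rw [okF, (tlin_iff _).2 hs, (tlin_iff _).2 ht, Bool.and_self, Bool.or_true]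
    | ge hs ht => rw [okF, (tlin_iff _).2 hs, (tlin_iff _).2 ht, Bool.and_self, Bool.or_true]
    | gt hs ht => rw [okF, (tlin_iff _).2 hs, (tlin_iff _).2 ht, Bool.and_self, Bool.or_true]
    | rel f hρ => exact okF_of_any Γ _ ((any_iff hM Γ _).2 ⟨_, hρ, f, rfl⟩)
    | and _ _ ihp ihq => rw [okF, ihp, ihq, Bool.and_self, Bool.or_true]
    | or _ _ ihp ihq => rw [okF, ihp, ihq, Bool.and_self, Bool.or_true]
    | not _ ihp => rw [okF, ihp, Bool.or_true]

end Pool.Agent.Helper67.DI
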